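import Pool.Agent.Q130.IPC.Greedy

set_option autoImplicit false

/-! # Graphs with few induced cycle lengths have bounded strong isometric path complexity

Q2 (and hence Q1) of MP_9fae2f_co has a positive answer: there is a function `F` such that the
strong isometric path complexity of every connected graph whose induced cycles have at most `ℓ`
different lengths is at most `F ℓ`.

Proof: a geodesic `P` which is not covered by few geodesics from the root `v` has many points
`x_1, x_2, ...` no two of which lie in a monotone piece of the distance to `v`.  Geodesics from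
sparsely chosen `x_i` to `v` leave `P` near `x_i`; let `w_i` be the last vertex of the `i`-th
geodesic with a neighbour on `P`.  In a minimal connected set `H` of the remaining parts that
contains `t` of the `w_i` the paths between the `w_i` give induced cycles with `P`, whose lengths
take at most `ℓ` values.  But `H` is almost a tree: its distances satisfy the four point condition
up to `O(t)`, and this contradicts the order of the `w_i` along `P`. -/

namespace Pool.Agent.Results.MP_9fae2f_co.StrongComplexityBounded

open SimpleGraph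

/-- the set of the lengths of the induced cycles of `G` -/
def cycleLengths {V : Type} (G : SimpleGraph V) : Set ℕ :=
  {n | 3 ≤ n ∧ Nonempty (cycleGraph n ↪g G)}

/-- the vertex `v` has property `(k)`: every isometric path of `G` is covered by the vertex sets of
`k` isometric paths starting at `v` -/
def HasProperty {V : Type} (G : SimpleGraph V) (v : V) (k : ℕ) : Prop :=
  ∀ (a b : V) (P : G.Walk a b), P.length = G.dist a b →
    ∃ (e : Fin k → V) (Q : ∀ i, G.Walk v (e i)), (∀ i, (Q i).length = G.dist v (e i)) ∧
      ∀ x ∈ P.support, ∃ i, x ∈ (Q i).support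

/-- the isometric path complexity -/
noncomputable def ipco {V : Type} (G : SimpleGraph V) : ℕ := sInf {k | ∃ v, HasProperty G v k}

/-- the strong isometric path complexity -/
noncomputable def sipco {V : Type} (G : SimpleGraph V) : ℕ := sInf {k | ∀ v, HasProperty G v k}

theorem result : ∃ F : ℕ → ℕ, ∀ (ℓ : ℕ) (V : Type) (G : SimpleGraph V), G.Connected →
    (cycleLengths G).encard ≤ ℓ →
    (∀ v : V, HasProperty G v (F ℓ)) ∧ ipco G ≤ F ℓ ∧ sipco G ≤ F ℓ := by
  refine ⟨fun ℓ => (2 * 2 ^ (ℓ + 1) + 15) * 2 ^ (ℓ + 1) + 10, ?_⟩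
  intro ℓ V G hc hS
  have main : ∀ v : V, HasProperty G v ((2 * 2 ^ (ℓ + 1) + 15) * 2 ^ (ℓ + 1) + 10) := by
    intro v a b P hP
    have hiso := Pool.Agent.Q130.IPC.iso_of_walk hc P hP
    have hfin : (cycleLengths G).Finite := by
      apply Set.finite_of_encard_le_coe hS
    rcases Pool.Agent.Q130.IPC.greedy (G := G) v P.getVert P.length
        ((2 * 2 ^ (ℓ + 1) + 15) * 2 ^ (ℓ + 1) + 10) 0 (Nat.zero_le _) with
      ⟨X, _, hX⟩ | ⟨A, B, hAB, hcov⟩
    · exfalso
      refine Pool.Agent.Q130.IPC.core hc hiso hX ℓ hfin.toFinset ?_ ?_ le_rfl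
      · have h1 := hfin.encard_eq_coe_toFinset_card
        rw [h1] at hS
        exact_mod_cast hS
      · intro n h3 hn
        rw [Set.Finite.mem_toFinset]
        exact ⟨h3, hn⟩
    · have hp := fun (i : Fin ((2 * 2 ^ (ℓ + 1) + 15) * 2 ^ (ℓ + 1) + 10)) =>
        Pool.Agent.Q130.IPC.piece hc v hiso (hAB i i.isLt).2.1 (hAB i i.isLt).2.2.1
          (hAB i i.isLt).2.2.2
      choose e Q hQ hsup using hp
      refine ⟨e, Q, hQ, ?_⟩
      intro x hx
      rw [Walk.mem_support_iff_exists_getVert] at hx
      obtain ⟨n, rfl, hn⟩ := hx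
      obtain ⟨i, hi, h1, h2⟩ := hcov n (Nat.zero_le _) hn
      exact ⟨⟨i, hi⟩, hsup ⟨i, hi⟩ n h1 h2⟩
  obtain ⟨v0⟩ := hc.nonempty
  exact ⟨main, Nat.sInf_le ⟨v0, main v0⟩, Nat.sInf_le main⟩

end Pool.Agent.Results.MP_9fae2f_co.StrongComplexityBounded
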